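import Pool.Agent.Helper50.VD.St

open MeasureTheory Set Filter Topology
open scoped ENNReal

noncomputable section

namespace VD.M_T3

/-- reflection -/
def rho (z : ℝ × ℝ) : ℝ × ℝ := (-z.1, z.2)

theorem rho_mp : MeasurePreserving rho volume volume := by
  have h := (Measure.measurePreserving_neg (volume : Measure ℝ)).prod
    (MeasurePreserving.id (volume : Measure ℝ))
  rw [Measure.volume_eq_prod]
  exact h

theorem rho_emb : MeasurableEmbedding rho := by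
  have hm : Measurable rho := rho_mp.measurable
  refine MeasurableEquiv.measurableEmbedding
    { toFun := rho, invFun := rho, left_inv := ?_, right_inv := ?_,
      measurable_toFun := hm, measurable_invFun := hm }
  · intro z; simp [rho]
  · intro z; simp [rho]

theorem null_axis : volume {y : ℝ × ℝ | y.1 = 0} = 0 := by
  have : {y : ℝ × ℝ | y.1 = 0} = ({0} : Set ℝ) ×ˢ (univ : Set ℝ) := by
    ext y; simp
  rw [this, Measure.volume_eq_prod, Measure.prod_prod]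
  simp

theorem int_rho {S : Set (ℝ × ℝ)} {F : ℝ × ℝ → ℝ} (hsym : ∀ z, z ∈ S ↔ rho z ∈ S)
    (hF : IntegrableOn F S) : IntegrableOn (fun y => F (rho y)) S := by
  have h := (rho_mp.integrableOn_comp_preimage rho_emb (f := F) (s := S)).mpr hF
  have e : rho ⁻¹' S = S := by
    ext z; exact (hsym z).symm
  rw [e] at h
  exact h

theorem split_rho {S : Set (ℝ × ℝ)} {F : ℝ × ℝ → ℝ} (hS : MeasurableSet S)
    (hsym : ∀ z, z ∈ S ↔ rho z ∈ S)
    (hF : IntegrableOn F S) :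
    ∫ y in S, F y = ∫ y in S ∩ {y | 0 < y.1}, (F y + F (rho y)) := by
  have hpos : MeasurableSet {y : ℝ × ℝ | 0 < y.1} := measurableSet_lt measurable_const measurable_fst
  have hneg : MeasurableSet {y : ℝ × ℝ | y.1 < 0} := measurableSet_lt measurable_fst measurable_const
  have e : S =ᵐ[volume] ((S ∩ {y | 0 < y.1}) ∪ (S ∩ {y | y.1 < 0}) : Set (ℝ × ℝ)) := by
    have h0 : ∀ᵐ y : ℝ × ℝ, y.1 ≠ 0 := by
      rw [ae_iff]
      simpa using null_axis
    filter_upwards [h0] with y hy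
    apply propext
    show y ∈ S ↔ y ∈ ((S ∩ {y | 0 < y.1}) ∪ (S ∩ {y | y.1 < 0}) : Set (ℝ × ℝ))
    constructor
    · intro h
      rcases lt_or_gt_of_ne hy with h1 | h1
      · exact Or.inr ⟨h, h1⟩
      · exact Or.inl ⟨h, h1⟩
    · rintro (h | h)
      · exact h.1
      · exact h.1
  rw [setIntegral_congr_set e, setIntegral_union]
  · have h2 : ∫ y in S ∩ {y | y.1 < 0}, F y = ∫ y in S ∩ {y | 0 < y.1}, F (rho y) := by
      have := rho_mp.setIntegral_preimage_emb rho_emb F (S ∩ {y | y.1 < 0})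
      rw [← this]
      congr 2
      ext z
      constructor
      · rintro ⟨h1, h2⟩
        refine ⟨(hsym z).mpr h1, ?_⟩
        have : -z.1 < 0 := h2
        show 0 < z.1
        linarith
      · rintro ⟨h1, h2⟩
        refine ⟨(hsym z).mp h1, ?_⟩
        have : 0 < z.1 := h2
        show -z.1 < 0
        linarith
    rw [h2, integral_add]
    · exact hF.mono_set inter_subset_left
    · exact (int_rho hsym hF).mono_set inter_subset_left
  · rw [Set.disjoint_left]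
    rintro y ⟨_, h1⟩ ⟨_, h2⟩
    have h1' : 0 < y.1 := h1
    have h2' : y.1 < 0 := h2
    linarith
  · exact hS.inter hneg
  · exact hF.mono_set inter_subset_left
  · exact hF.mono_set inter_subset_left

/-- consecutive pairs of a list are ordered -/
def okL (l : List (ℕ × ℕ)) : Bool :=
  (l.zip l.tail).all fun x => decide (x.1.1 ≤ x.2.1) && decide (x.2.2 ≤ x.1.2) && decide (0 < x.1.2)
    && decide (0 < x.2.1)

theorem okL_ref : okL (refine 8 Vs) = true := by decide +kernel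

theorem slab_eq (P : PtsT) (s0 s1 : ℕ) (C : ℝ) : ∀ l : List (ℕ × ℕ), okL l = true →
    (slab P s0 s1 l : ℝ) * C =
      pairSum (fun Q Q' => (cellT P Q.1 Q.2 Q'.1 Q'.2 s0 s1 : ℝ) * C) l
  | [], _ => by simp [slab, pairSum]
  | [a], _ => by simp [slab, pairSum]
  | (ax, ay) :: (bx, by') :: l, h => by
    have h1 : ax ≤ bx ∧ by' ≤ ay := by
      simp [okL] at h
      exact ⟨h.1.1.1.1, h.1.1.1.2⟩
    have h2 : okL ((bx, by') :: l) = true := by
      simp only [okL, List.tail_cons, List.zip_cons_cons, List.all_cons, Bool.and_eq_true] at h ⊢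
      exact h.2
    have ih := slab_eq P s0 s1 C ((bx, by') :: l) h2
    have h3 : ax * by' ≤ bx * ay := Nat.mul_le_mul h1.1 h1.2
    have e1 : slab P s0 s1 ((ax, ay) :: (bx, by') :: l) =
      (bx * ay - ax * by') * (ay + by') * cellT P ax ay bx by' s0 s1 +
        slab P s0 s1 ((bx, by') :: l) := rfl
    rw [e1, pairSum, ← ih]
    push_cast [Nat.cast_sub h3]
    ring

theorem N_self {y : ℝ × ℝ} (hy : 0 < y.2) : N y y = 0 := by
  unfold N G
  rw [if_neg hy.ne']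
  simp

theorem N_nonneg (hK1 : StK1) {z y : ℝ × ℝ} (hz : 0 ≤ z.2) (hy : 0 < y.2) : 0 ≤ N z y := by
  by_cases h : z = y
  · rw [h, N_self hy]
  · exact (hK1 z y hz hy h).1.le

theorem sym_DM {A : Set (ℝ × ℝ)} (h : DM A) : ∀ z, z ∈ A ↔ rho z ∈ A := by
  intro z
  constructor
  · intro hz; exact h.symm hz
  · intro hz
    have := h.symm hz
    simpa [rho] using this

theorem sym_diff {A B : Set (ℝ × ℝ)} (hA : DM A) (hB : DM B) :
    ∀ z, z ∈ A \ B ↔ rho z ∈ A \ B := by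
  intro z
  constructor
  · rintro ⟨h1, h2⟩; exact ⟨(sym_DM hA z).mp h1, fun h => h2 ((sym_DM hB z).mpr h)⟩
  · rintro ⟨h1, h2⟩; exact ⟨(sym_DM hA z).mpr h1, fun h => h2 ((sym_DM hB z).mp h)⟩

/-- integrand -/
def FF (A : Set (ℝ × ℝ)) (p q : ℝ × ℝ) (y : ℝ × ℝ) : ℝ :=
  A.indicator (fun y => N q y + N q (rho y)) y + Aᶜ.indicator (fun y => N p y + N p (rho y)) y

theorem FF_nonneg (hK1 : StK1) {A : Set (ℝ × ℝ)} {p q y : ℝ × ℝ} (hp : 0 ≤ p.2) (hq : 0 ≤ q.2)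
    (hy : 0 < y.2) : 0 ≤ FF A p q y := by
  have h1 := N_nonneg hK1 hp hy
  have h2 := N_nonneg hK1 (y := rho y) hp hy
  have h3 := N_nonneg hK1 hq hy
  have h4 := N_nonneg hK1 (y := rho y) hq hy
  unfold FF
  by_cases h : y ∈ A
  · simp [h]; linarith
  · simp [h]; linarith

theorem sg_zero (R : ℕ) : sg R 0 = R := by
  show (R * (16 - 0) + 10000 * 0) / 16 = R
  omega

theorem sg_16 (R : ℕ) : sg R 16 = 10000 := by
  show (R * (16 - 16) + 10000 * 16) / 16 = 10000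
  omega

theorem sg_mono {R : ℕ} (hR : R ≤ 10000) {j : ℕ} (hj : j < 16) : sg R j ≤ sg R (j + 1) := by
  show (R * (16 - j) + 10000 * j) / 16 ≤ (R * (16 - (j + 1)) + 10000 * (j + 1)) / 16
  apply Nat.div_le_div_right
  obtain ⟨m, hm⟩ : ∃ m, 16 - j = m + 1 := ⟨16 - j - 1, by omega⟩
  have hm' : 16 - (j + 1) = m := by omega
  rw [hm, hm']
  nlinarith

theorem sg_ge {R : ℕ} (hR : R ≤ 10000) {j : ℕ} (hj : j ≤ 16) : R ≤ sg R j := by
  show R ≤ (R * (16 - j) + 10000 * j) / 16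
  rw [Nat.le_div_iff_mul_le (by norm_num)]
  obtain ⟨m, hm⟩ : ∃ m, 16 = m + j := ⟨16 - j, by omega⟩
  have hm' : 16 - j = m := by omega
  rw [hm']
  have : R * 16 = R * m + R * j := by rw [← Nat.mul_add, ← hm]
  nlinarith

theorem sg_le {R : ℕ} (hR : R ≤ 10000) {j : ℕ} (hj : j ≤ 16) : sg R j ≤ 10000 := by
  show (R * (16 - j) + 10000 * j) / 16 ≤ 10000
  apply Nat.div_le_of_le_mul
  obtain ⟨m, hm⟩ : ∃ m, 16 = m + j := ⟨16 - j, by omega⟩
  have hm' : 16 - j = m := by omega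
  rw [hm']
  have : 16 * 10000 = 10000 * m + 10000 * j := by omega
  nlinarith

theorem slabs_succ (P : PtsT) (R : ℕ) (Q : List (ℕ × ℕ)) (k : ℕ) :
    slabs P R Q (k + 1) =
      (sg R (16 - k) * sg R (16 - k) * sg R (16 - k) -
        sg R (15 - k) * sg R (15 - k) * sg R (15 - k)) *
        slab P (sg R (15 - k)) (sg R (16 - k)) Q + slabs P R Q k := rfl


theorem PB_sub {a b : ℝ} (h : a ≤ b) : PB a ⊆ PB b := fun _ hz => ⟨hz.1, lt_of_lt_of_le hz.2 h⟩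

theorem intN (hK2 : StK2) (hP0 : StP0) {z : ℝ × ℝ} (hz : 0 ≤ z.2) :
    IntegrableOn (fun y => N z y + N z (rho y)) (PB 1) := by
  obtain ⟨-, -, -, -, -, -, h7⟩ := hP0
  have hB := (h7 1 one_pos).1
  have h1 := (hK2 (PB 1) hB.meas hB.sub hB.vol z hz).1
  exact h1.add (int_rho (sym_DM hB) h1)

theorem intFF (hK2 : StK2) (hP0 : StP0) {A : Set (ℝ × ℝ)} (hA : DM A) {p q : ℝ × ℝ}
    (hp : 0 ≤ p.2) (hq : 0 ≤ q.2) : IntegrableOn (FF A p q) (PB 1) := by
  exact ((intN hK2 hP0 hq).indicator hA.meas).add ((intN hK2 hP0 hp).indicator hA.meas.compl)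

theorem slab_le (hK1 : StK1) (hK2 : StK2) (hP0 : StP0) (hT2 : StT2) (hT3a : StT3a)
    {R1 : ℕ} (h1 : 1 ≤ R1) (h2 : R1 ≤ 10000) (hn : (mkT R1).n0 ≤ (mkT R1).n1)
    {A : Set (ℝ × ℝ)} {ρ : ℝ} {p q : ℝ × ℝ} (hc : Conf A ρ p q) (hpq : p.1 ≤ q.1)
    (hR1 : ρ ≤ (R1 : ℝ) / 10000) {s0 s1 : ℕ} (hs0 : 0 < s0) (hs : s0 ≤ s1) (hs1 : s1 ≤ 10000) :
    ((s1 : ℝ) ^ 3 - (s0 : ℝ) ^ 3) * (slab (mkT R1) s0 s1 (refine 8 Vs) : ℝ) *
      (1 / (Real.pi * (48 * 10 ^ 34))) ≤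
      ∫ y in (PB ((s1 : ℝ) / 10000) \ PB ((s0 : ℝ) / 10000)) ∩ {y | 0 < y.1}, FF A p q y := by
  have hpi := Real.pi_pos
  rcases eq_or_lt_of_le hs with he | hlt
  · subst he
    generalize (slab (mkT R1) s0 s0 (refine 8 Vs) : ℝ) = t
    rw [sub_self, zero_mul, zero_mul, sdiff_self]
    have : (∅ : Set (ℝ × ℝ)) ∩ {y | 0 < y.1} = ∅ := by ext; simp
    rw [this]
    simp
  have ha : (0 : ℝ) < (s0 : ℝ) / 10000 := by positivity
  have hab : (s0 : ℝ) / 10000 < (s1 : ℝ) / 10000 := by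
    have : (s0 : ℝ) < s1 := by exact_mod_cast hlt
    linarith
  have hb : (s1 : ℝ) / 10000 ≤ 1 := by
    have : (s1 : ℝ) ≤ 10000 := by exact_mod_cast hs1
    linarith
  have hpos2 : ∀ y ∈ (PB ((s1 : ℝ) / 10000) \ PB ((s0 : ℝ) / 10000)) ∩ {y | 0 < y.1}, 0 < y.2 :=
    fun y hy => hy.1.1.1
  have hmeas : MeasurableSet ((PB ((s1 : ℝ) / 10000) \ PB ((s0 : ℝ) / 10000)) ∩
      {y : ℝ × ℝ | 0 < y.1}) := by
    obtain ⟨-, -, -, -, -, -, h7⟩ := hP0
    exact (((h7 _ (ha.trans hab)).1.meas).diff (h7 _ ha).1.meas).inter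
      (measurableSet_lt measurable_const measurable_fst)
  have hcongr : ∀ y ∈ (PB ((s1 : ℝ) / 10000) \ PB ((s0 : ℝ) / 10000)) ∩ {y | 0 < y.1},
      FF A p q y = y.2 * (FF A p q y / y.2) := by
    intro y hy
    have := hpos2 y hy
    field_simp
  have hint : IntegrableOn (fun y : ℝ × ℝ => y.2 * (FF A p q y / y.2))
      ((PB ((s1 : ℝ) / 10000) \ PB ((s0 : ℝ) / 10000)) ∩ {y | 0 < y.1}) := by
    refine IntegrableOn.congr_fun ?_ hcongr hmeas
    refine (intFF hK2 hP0 hc.dm hc.p2 hc.q2).mono_set ?_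
    intro y hy
    exact PB_sub hb hy.1.1
  have key := hT2 8 (fun Q Q' => (cellT (mkT R1) Q.1 Q.2 Q'.1 Q'.2 s0 s1 : ℝ) *
      (80000 ^ 2 / (Real.pi * 10 ^ 30))) (fun y => FF A p q y / y.2) ((s0 : ℝ) / 10000)
      ((s1 : ℝ) / 10000) (by norm_num) ha hab hb
      (fun y _ hy2 => div_nonneg (FF_nonneg hK1 hc.p2 hc.q2 hy2) hy2.le) hint ?_
  · rw [← slab_eq (mkT R1) s0 s1 (80000 ^ 2 / (Real.pi * 10 ^ 30)) _ okL_ref] at key
    rw [setIntegral_congr_fun hmeas hcongr]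
    refine le_trans (le_of_eq ?_) key
    clear key
    generalize (slab (mkT R1) s0 s1 (refine 8 Vs) : ℝ) = t
    push_cast
    field_simp
    ring
  · rintro ⟨ax, ay⟩ ⟨bx, by'⟩ hQ
    have hok := okL_ref
    rw [okL, List.all_eq_true] at hok
    have hok' := hok _ hQ
    simp only [Bool.and_eq_true, decide_eq_true_eq] at hok'
    obtain ⟨⟨⟨o1, o2⟩, o3⟩, o4⟩ := hok'
    have hp0 : ∀ᵐ y : ℝ × ℝ, y ≠ p := by
      rw [ae_iff]; simp
    have hq0 : ∀ᵐ y : ℝ × ℝ, y ≠ q := by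
      rw [ae_iff]; simp
    filter_upwards [hp0, hq0] with y hyp hyq hy
    have hy' : y ∈ sec ((ax : ℝ) / 8, (ay : ℝ) / 8) ((bx : ℝ) / 8, (by' : ℝ) / 8)
      ((s0 : ℝ) / 10000) ((s1 : ℝ) / 10000) := by
      simpa using hy
    have hy2 : 0 < y.2 := by
      obtain ⟨s, t, hs', ht', -, -, -, e2⟩ := hy'
      rw [e2]
      have : (0 : ℝ) < ay := by exact_mod_cast o3
      have h3 : 0 < s * ((ay : ℝ) / 8) := by positivity
      have h4 : 0 ≤ t * ((by' : ℝ) / 8) := by positivity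
      show 0 < s * ((ay : ℝ) / 8) + t * ((by' : ℝ) / 8)
      linarith
    obtain ⟨t1, t2⟩ := hT3a R1 h1 h2 hn ax ay bx by' s0 s1 hs o1 o2 hs0 o3 o4 y hy'
    obtain ⟨-, -, hg3, -⟩ := hP0
    have hq1 : q.1 ≤ 6475 * ρ := by
      have := (hg3 q hc.q2).2.1
      rw [hc.gq] at this
      exact (le_abs_self _).trans this
    have hxT : ((mkT R1).xT : ℝ) = 8 * R1 * 6475 := by
      show ((8 * R1 * 6475 : ℕ) : ℝ) = _
      push_cast; ring
    have hp' := t1 p hc.p1 hc.p2 hc.gp (by rw [hxT]; nlinarith) (Ne.symm hyp)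
    have hq' := t2 q hc.q1 hc.q2 (by rw [hc.gq]; exact hR1) (Ne.symm hyq)
    show (cellT (mkT R1) ax ay bx by' s0 s1 : ℝ) * (80000 ^ 2 / (Real.pi * 10 ^ 30)) ≤
      FF A p q y / y.2
    rw [le_div_iff₀ hy2]
    have e3 : (cellT (mkT R1) ax ay bx by' s0 s1 : ℝ) * (80000 ^ 2 / (Real.pi * 10 ^ 30)) * y.2 =
      y.2 * ((cellT (mkT R1) ax ay bx by' s0 s1 : ℝ) * 80000 ^ 2 / (Real.pi * 10 ^ 30)) := by ring
    rw [e3]
    unfold FF
    by_cases h : y ∈ A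
    · simpa [h, rho] using hq'
    · simpa [h, rho] using hp'

theorem slabs_le (hK1 : StK1) (hK2 : StK2) (hP0 : StP0) (hT2 : StT2) (hT3a : StT3a)
    {R1 : ℕ} (h1 : 1 ≤ R1) (h2 : R1 ≤ 10000) (hn : (mkT R1).n0 ≤ (mkT R1).n1)
    {A : Set (ℝ × ℝ)} {ρ : ℝ} {p q : ℝ × ℝ} (hc : Conf A ρ p q) (hpq : p.1 ≤ q.1)
    (hR1 : ρ ≤ (R1 : ℝ) / 10000) : ∀ k : ℕ, k ≤ 16 →
    (slabs (mkT R1) R1 (refine 8 Vs) k : ℝ) * (1 / (Real.pi * (48 * 10 ^ 34))) ≤
      ∫ y in (PB 1 \ PB ((sg R1 (16 - k) : ℝ) / 10000)) ∩ {y | 0 < y.1}, FF A p q y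
  | 0, _ => by
    have e : (PB 1 \ PB ((sg R1 (16 - 0) : ℝ) / 10000)) ∩ {y : ℝ × ℝ | 0 < y.1} = ∅ := by
      have : ((sg R1 (16 - 0) : ℕ) : ℝ) / 10000 = 1 := by
        rw [show 16 - 0 = 16 from rfl, sg_16]; norm_num
      rw [this]; simp
    rw [e]
    simp [slabs]
  | k + 1, hk => by
    have ih := slabs_le hK1 hK2 hP0 hT2 hT3a h1 h2 hn hc hpq hR1 k (by omega)
    have e15 : 16 - (k + 1) = 15 - k := by omega
    obtain ⟨j, hj⟩ : ∃ j, j = 15 - k := ⟨_, rfl⟩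
    have hj1 : 16 - k = j + 1 := by omega
    have hm := sg_mono h2 (show j < 16 by omega)
    have hg := sg_ge h2 (show j ≤ 16 by omega)
    have hl := sg_le h2 (show j + 1 ≤ 16 by omega)
    have hslab := slab_le hK1 hK2 hP0 hT2 hT3a h1 h2 hn hc hpq hR1 (s0 := sg R1 j)
      (s1 := sg R1 (j + 1)) (by omega) hm hl
    rw [slabs_succ, e15, ← hj, hj1]
    rw [hj1] at ih
    have h3 : sg R1 j * sg R1 j * sg R1 j ≤ sg R1 (j + 1) * sg R1 (j + 1) * sg R1 (j + 1) :=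
      Nat.mul_le_mul (Nat.mul_le_mul hm hm) hm
    have hb : (sg R1 (j + 1) : ℝ) / 10000 ≤ 1 := by
      have : (sg R1 (j + 1) : ℝ) ≤ 10000 := by exact_mod_cast hl
      linarith
    have hab : (sg R1 j : ℝ) / 10000 ≤ (sg R1 (j + 1) : ℝ) / 10000 := by
      have : (sg R1 j : ℝ) ≤ sg R1 (j + 1) := by exact_mod_cast hm
      linarith
    have ha0 : (0 : ℝ) < (sg R1 j : ℝ) / 10000 := by
      have : (1 : ℝ) ≤ (sg R1 j : ℝ) := by exact_mod_cast (h1.trans hg)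
      linarith
    have h7 := hP0.2.2.2.2.2.2
    have eset : (PB 1 \ PB ((sg R1 j : ℝ) / 10000)) ∩ {y : ℝ × ℝ | 0 < y.1} =
      ((PB ((sg R1 (j + 1) : ℝ) / 10000) \ PB ((sg R1 j : ℝ) / 10000)) ∩ {y : ℝ × ℝ | 0 < y.1}) ∪
      ((PB 1 \ PB ((sg R1 (j + 1) : ℝ) / 10000)) ∩ {y : ℝ × ℝ | 0 < y.1}) := by
      ext y
      constructor
      · rintro ⟨⟨m1, m2⟩, m3⟩
        by_cases m4 : y ∈ PB ((sg R1 (j + 1) : ℝ) / 10000)
        · exact Or.inl ⟨⟨m4, m2⟩, m3⟩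
        · exact Or.inr ⟨⟨m1, m4⟩, m3⟩
      · rintro (⟨⟨m1, m2⟩, m3⟩ | ⟨⟨m1, m2⟩, m3⟩)
        · exact ⟨⟨PB_sub hb m1, m2⟩, m3⟩
        · exact ⟨⟨m1, fun h => m2 (PB_sub hab h)⟩, m3⟩
    have hint := intFF hK2 hP0 hc.dm (p := p) (q := q) hc.p2 hc.q2
    rw [eset, setIntegral_union]
    · push_cast [Nat.cast_sub h3]
      have : ((sg R1 (j + 1) : ℝ) * sg R1 (j + 1) * sg R1 (j + 1) -
          (sg R1 j : ℝ) * sg R1 j * sg R1 j) *
          (slab (mkT R1) (sg R1 j) (sg R1 (j + 1)) (refine 8 Vs) : ℝ) *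
          (1 / (Real.pi * (48 * 10 ^ 34))) =
        ((sg R1 (j + 1) : ℝ) ^ 3 - (sg R1 j : ℝ) ^ 3) *
          (slab (mkT R1) (sg R1 j) (sg R1 (j + 1)) (refine 8 Vs) : ℝ) *
          (1 / (Real.pi * (48 * 10 ^ 34))) := by ring
      rw [add_mul, this]
      exact add_le_add hslab ih
    · rw [Set.disjoint_left]
      rintro y ⟨⟨m1, m2⟩, m3⟩ ⟨⟨m4, m5⟩, m6⟩
      exact m5 m1
    · exact (((h7 1 one_pos).1.meas).diff (h7 _ (ha0.trans_le hab)).1.meas).inter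
        (measurableSet_lt measurable_const measurable_fst)
    · exact hint.mono_set fun y hy => PB_sub hb hy.1.1
    · exact hint.mono_set fun y hy => hy.1.1

end VD.M_T3

namespace VD

open VD.M_T3 in
/-- soundness of chkT (tall contacts), sum over 16 slabs -/
theorem mT3 (_hK0 : StK0) (hK1 : StK1) (hK2 : StK2) (hP0 : StP0) (hU1 : StU1) (hT2 : StT2)
    (hT3a : StT3a) : StT3 := by
  intro R1 R0 hchk A ρ p q hc hpq hR0 hR1
  unfold chkT at hchk
  rw [Bool.and_eq_true, Bool.and_eq_true, Bool.and_eq_true, Nat.ble_eq, Nat.ble_eq, Nat.ble_eq,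
    Nat.ble_eq] at hchk
  obtain ⟨⟨⟨hn, h2⟩, h0⟩, hs⟩ := hchk
  obtain ⟨S, hS⟩ : ∃ S, S = slabs (mkT R1) R1 (refine 8 Vs) 16 := ⟨_, rfl⟩
  rw [← hS] at hs
  have h01 : R0 ≤ R1 := by
    have : (R0 : ℝ) ≤ R1 := by linarith
    exact_mod_cast this
  have h1 : 1 ≤ R1 := h0.trans h01
  have hpi := Real.pi_pos
  have hsl := slabs_le hK1 hK2 hP0 hT2 hT3a h1 h2 hn hc hpq hR1 16 le_rfl
  rw [show 16 - 16 = 0 from rfl, sg_zero, ← hS] at hsl
  clear hS
  have h7 := hP0.2.2.2.2.2.2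
  have hB1 := (h7 1 one_pos).1
  have hBρ := (h7 ρ hc.hρ).1
  have hA := hc.dm
  have hU := (hU1 A ρ p q hc).1
  -- the two integrals
  have i1 : IntegrableOn (fun y => N p y) (PB 1 \ A) :=
    (hK2 (PB 1) hB1.meas hB1.sub hB1.vol p hc.p2).1.mono_set sdiff_subset
  have i2 : IntegrableOn (fun y => N q y) (A \ PB ρ) :=
    (hK2 A hA.meas hA.sub hA.vol q hc.q2).1.mono_set sdiff_subset
  rw [split_rho (hB1.meas.diff hA.meas) (sym_diff hB1 hA) i1,
    split_rho (hA.meas.diff hBρ.meas) (sym_diff hA hBρ) i2] at hU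
  have hpos : MeasurableSet {y : ℝ × ℝ | 0 < y.1} := measurableSet_lt measurable_const measurable_fst
  have nn : ∀ z : ℝ × ℝ, 0 ≤ z.2 → ∀ y : ℝ × ℝ, 0 < y.2 → 0 ≤ N z y + N z (rho y) := by
    intro z hz y hy
    exact add_nonneg (N_nonneg hK1 hz hy) (N_nonneg hK1 (y := rho y) hz hy)
  have hle : ∫ y in (PB 1 \ PB ((R1 : ℝ) / 10000)) ∩ {y | 0 < y.1}, FF A p q y ≤
      1006 - 994 * ρ := by
    refine le_trans ?_ hU
    have hint := intFF hK2 hP0 hc.dm (p := p) (q := q) hc.p2 hc.q2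
    have eF : ∫ y in (PB 1 \ PB ((R1 : ℝ) / 10000)) ∩ {y | 0 < y.1}, FF A p q y =
        (∫ y in ((PB 1 \ PB ((R1 : ℝ) / 10000)) ∩ {y | 0 < y.1}) ∩ A, (N q y + N q (rho y))) +
        ∫ y in ((PB 1 \ PB ((R1 : ℝ) / 10000)) ∩ {y | 0 < y.1}) ∩ Aᶜ,
          (N p y + N p (rho y)) := by
      have hsub : (PB 1 \ PB ((R1 : ℝ) / 10000)) ∩ {y : ℝ × ℝ | 0 < y.1} ⊆ PB 1 :=
        fun y hy => hy.1.1
      unfold FF
      rw [integral_add, setIntegral_indicator hA.meas, setIntegral_indicator hA.meas.compl]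
      · exact ((intN hK2 hP0 hc.q2).indicator hA.meas).mono_set hsub
      · exact ((intN hK2 hP0 hc.p2).indicator hA.meas.compl).mono_set hsub
    rw [eF, add_comm]
    apply add_le_add
    · apply setIntegral_mono_set
      · exact (i1.add (int_rho (sym_diff hB1 hA) i1)).mono_set inter_subset_left
      · filter_upwards [ae_restrict_mem ((hB1.meas.diff hA.meas).inter hpos)] with y hy
        exact nn p hc.p2 y hy.1.1.1
      · apply Filter.Eventually.of_forall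
        rintro y ⟨⟨⟨m1, m2⟩, m3⟩, m4⟩
        exact ⟨⟨m1, m4⟩, m3⟩
    · apply setIntegral_mono_set
      · exact (i2.add (int_rho (sym_diff hA hBρ) i2)).mono_set inter_subset_left
      · filter_upwards [ae_restrict_mem ((hA.meas.diff hBρ.meas).inter hpos)] with y hy
        exact nn q hc.q2 y (hA.sub hy.1.1)
      · apply Filter.Eventually.of_forall
        rintro y ⟨⟨⟨m1, m2⟩, m3⟩, m4⟩
        exact ⟨⟨m4, fun h => m2 (PB_sub hR1 h)⟩, m3⟩
  have hfin := hsl.trans hle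
  have hs' : ((10060000 - 994 * R0 : ℕ) : ℝ) * 150800000000000000000000000000000 + 1 ≤
      (S : ℝ) := by
    have : (10060000 - 994 * R0) * 150800000000000000000000000000000 + 1 ≤ S := hs
    exact_mod_cast this
  have hcast : ((10060000 - 994 * R0 : ℕ) : ℝ) = 10060000 - 994 * R0 := by
    have : 994 * R0 ≤ 10060000 := by omega
    push_cast [Nat.cast_sub this]
    ring
  rw [hcast] at hs'
  have hpi2 : Real.pi < 3.1416 := Real.pi_lt_d4
  have h5 : (S : ℝ) ≤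
      (1006 - 994 * ρ) * (Real.pi * (48 * 10 ^ 34)) := by
    have h6 : (0 : ℝ) < Real.pi * (48 * 10 ^ 34) := by positivity
    rw [mul_one_div, div_le_iff₀ h6] at hfin
    exact hfin
  have h8 : (1006 - 994 * ρ) ≤ (10060000 - 994 * (R0 : ℝ)) / 10000 := by linarith
  have h9 : (0 : ℝ) < (10060000 - 994 * (R0 : ℝ)) / 10000 := by
    have : (R0 : ℝ) ≤ 10000 := by exact_mod_cast (h01.trans h2)
    have : 0 < 10060000 - 994 * (R0 : ℝ) := by linarith
    positivity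
  have h10 : (1006 - 994 * ρ) * (Real.pi * (48 * 10 ^ 34)) ≤
      (10060000 - 994 * (R0 : ℝ)) / 10000 * (3.1416 * (48 * 10 ^ 34)) := by
    apply mul_le_mul h8 _ (by positivity) h9.le
    apply mul_le_mul_of_nonneg_right hpi2.le (by norm_num)
  nlinarith

end VD
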