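import Pool.Agent.Helper50.VD.St

open MeasureTheory Set Filter Topology
open scoped ENNReal

noncomputable section

namespace VD.M_R5

theorem closure_nonneg {A : Set (ℝ × ℝ)} (hA : A ⊆ Om) {z : ℝ × ℝ} (hz : z ∈ closure A) :
    0 ≤ z.2 := by
  have h1 : IsClosed {z : ℝ × ℝ | 0 ≤ z.2} := isClosed_le continuous_const continuous_snd
  refine closure_minimal (fun y hy => ?_) h1 hz
  have : 0 < y.2 := hA hy
  exact this.le

theorem compact_closure {A : Set (ℝ × ℝ)} (hA : DM A) : IsCompact (closure A) := by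
  obtain ⟨R, hR⟩ := hA.bdd
  have h1 : IsCompact (Icc (-R) R ×ˢ Icc 0 R : Set (ℝ × ℝ)) := isCompact_Icc.prod isCompact_Icc
  refine h1.of_isClosed_subset isClosed_closure (closure_minimal ?_ h1.isClosed)
  intro z hz
  have := hR hz
  exact ⟨abs_le.mp this.1, this.2.1.le, this.2.2⟩

/-- `φ ≥ W` on the closure -/
theorem phi_closure (hK3 : StK3) {A : Set (ℝ × ℝ)} {W : ℝ} (hS : Sol A W) {z : ℝ × ℝ}
    (hz : z ∈ closure A) : W ≤ phi A z := by
  have hc := hK3 A hS.dm.meas hS.dm.sub hS.dm.vol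
  have hz2 := closure_nonneg hS.dm.sub hz
  have h1 : ContinuousWithinAt (phi A) {z | 0 ≤ z.2} z := hc z hz2
  have h2 : ContinuousWithinAt (phi A) A z := h1.mono fun y hy =>
    (show 0 < y.2 from hS.dm.sub hy).le
  have hne : (𝓝[A] z).NeBot := mem_closure_iff_nhdsWithin_neBot.mp hz
  refine ge_of_tendsto h2 ?_
  filter_upwards [self_mem_nhdsWithin] with y hy
  exact ((hS.iff y (hS.dm.sub hy)).mp hy).le

/-- `φ ≤ W` at the corner -/
theorem phi_corner (hK3 : StK3) {A : Set (ℝ × ℝ)} {W : ℝ} (hS : Sol A W)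
    (h2 : ∀ t, 1 < t → ((5 / 3 * t, t) : ℝ × ℝ) ∉ A) : phi A (5 / 3, 1) ≤ W := by
  have hc := hK3 A hS.dm.meas hS.dm.sub hS.dm.vol
  have h1 : ContinuousWithinAt (phi A) {z | 0 ≤ z.2} (5 / 3, 1) := hc _ (by norm_num)
  have h3 : Tendsto (fun t : ℝ => ((5 / 3 * t, t) : ℝ × ℝ)) (𝓝[>] 1)
      (𝓝[{z | 0 ≤ z.2}] (5 / 3, 1)) := by
    apply tendsto_nhdsWithin_of_tendsto_nhds_of_eventually_within
    · have : Continuous (fun t : ℝ => ((5 / 3 * t, t) : ℝ × ℝ)) := by fun_prop
      have h4 := this.tendsto 1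
      simp only [mul_one] at h4
      exact h4.mono_left nhdsWithin_le_nhds
    · filter_upwards [self_mem_nhdsWithin] with t ht
      have : (1 : ℝ) < t := ht
      show 0 ≤ t
      linarith
  have h5 := h1.tendsto.comp h3
  refine le_of_tendsto h5 ?_
  filter_upwards [self_mem_nhdsWithin] with t ht
  have ht' : (1 : ℝ) < t := ht
  have h6 := h2 t ht'
  have h7 := (hS.iff (5 / 3 * t, t) (show (0 : ℝ) < t by linarith)).not.mp h6
  exact not_lt.mp h7

/-- row set -/
def Rw (A : Set (ℝ × ℝ)) (s : ℝ) : Set ℝ := {x | (x, s) ∈ A}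

/-- half width -/
def hw (A : Set (ℝ × ℝ)) (s : ℝ) : ℝ := sSup (Rw A s)

theorem Rw_bdd {A : Set (ℝ × ℝ)} (hA : DM A) (s : ℝ) : BddAbove (Rw A s) := by
  obtain ⟨R, hR⟩ := hA.bdd
  exact ⟨R, fun x hx => (le_abs_self x).trans (hR hx).1⟩

theorem Rw_le {A : Set (ℝ × ℝ)} (hA : DM A) {s x : ℝ} (hx : (x, s) ∈ A) : |x| ≤ hw A s := by
  apply le_csSup (Rw_bdd hA s)
  show (|x|, s) ∈ A
  have h0 : 0 < s := hA.sub hx
  exact hA.mono _ hx _ h0 (by simp) le_rfl

theorem Rw_mem {A : Set (ℝ × ℝ)} (hA : DM A) {s x : ℝ} (hs : 0 < s) (hne : (Rw A s).Nonempty)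
    (hx : |x| < hw A s) : (x, s) ∈ A := by
  obtain ⟨x', hx', hlt⟩ := exists_lt_of_lt_csSup hne hx
  exact hA.mono _ hx' (x, s) hs (hlt.le.trans (le_abs_self x')) le_rfl

theorem row_integral {A : Set (ℝ × ℝ)} (hA : DM A) {s : ℝ} (hs : 0 < s)
    (hne : (Rw A s).Nonempty) (hw0 : 0 ≤ hw A s) (h : ℝ × ℝ → ℝ) :
    ∫ x, A.indicator h (x, s) = ∫ x in (-hw A s)..(hw A s), h (x, s) := by
  rw [intervalIntegral.integral_of_le (by linarith)]
  rw [← integral_indicator measurableSet_Ioc]
  apply integral_congr_ae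
  have h1 : ∀ᵐ x : ℝ, x ≠ hw A s := by rw [ae_iff]; simp
  have h2 : ∀ᵐ x : ℝ, x ≠ -hw A s := by rw [ae_iff]; simp
  filter_upwards [h1, h2] with x hx1 hx2
  by_cases hx : (x, s) ∈ A
  · have h3 := Rw_le hA hx
    rw [abs_le] at h3
    rw [indicator_of_mem hx, indicator_of_mem (show x ∈ Ioc (-hw A s) (hw A s) from
      ⟨lt_of_le_of_ne h3.1 (Ne.symm hx2), h3.2⟩)]
  · have h3 : x ∉ Ioc (-hw A s) (hw A s) := by
      rintro ⟨h4, h5⟩
      exact hx (Rw_mem hA hs hne (abs_lt.mpr ⟨h4, lt_of_le_of_ne h5 hx1⟩))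
    rw [indicator_of_notMem hx, indicator_of_notMem h3]

/-- bound of a row -/
def bs (S s : ℝ) : ℝ :=
  if s < S then s / (2 * S) + (S - s) / (2 * Real.pi * S) * Real.log ((S + s) / (S - s)) - 0.7647 * s
  else max (-(0.2924 * s)) (1 / 4 * (1 + S / s) - 0.7647 * s)

theorem ii1 {S : ℝ} (hS : 0 < S) : IntervalIntegrable
    (fun s => s / (2 * S) + (S - s) / (2 * Real.pi * S) * Real.log ((S + s) / (S - s)))
    volume 0 S := by
  have hc : Continuous (fun s : ℝ => s / (2 * S) + (1 / (2 * Real.pi * S)) *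
      ((S - s) * Real.log (max (S + s) S) - (S - s) * Real.log (S - s))) := by
    have h1 : Continuous (fun s : ℝ => (S - s) * Real.log (S - s)) :=
      Real.continuous_mul_log.comp (continuous_const.sub continuous_id)
    have h2 : Continuous (fun s : ℝ => Real.log (max (S + s) S)) := by
      apply Continuous.log
      · fun_prop
      · intro x
        exact (lt_of_lt_of_le hS (le_max_right _ _)).ne'
    fun_prop
  have hpi := Real.pi_pos
  refine (hc.intervalIntegrable 0 S).congr_ae ?_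
  have h1 : ∀ᵐ x : ℝ, x ≠ S := by rw [ae_iff]; simp
  rw [Filter.EventuallyEq, ae_restrict_iff' measurableSet_uIoc]
  filter_upwards [h1] with s hs1 hs2
  rw [uIoc_of_le hS.le] at hs2
  have h3 : s < S := lt_of_le_of_ne hs2.2 hs1
  have h4 : 0 < s := hs2.1
  show s / (2 * S) + (1 / (2 * Real.pi * S)) *
      ((S - s) * Real.log (max (S + s) S) - (S - s) * Real.log (S - s)) = _
  rw [max_eq_left (by linarith), Real.log_div (by linarith) (by linarith)]
  ring

theorem ii2 {S : ℝ} (hS : 0 ≤ S) (hS1 : S ≤ 1) : IntervalIntegrable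
    (fun s => max (-(0.2924 * s)) (1 / 4 * (1 + S / s) - 0.7647 * s)) volume S 1 := by
  rcases eq_or_lt_of_le hS with h0 | h0
  · subst h0
    simp only [zero_div, add_zero]
    apply Continuous.intervalIntegrable
    fun_prop
  · apply ContinuousOn.intervalIntegrable
    rw [uIcc_of_le hS1]
    have : ContinuousOn (fun s : ℝ => S / s) (Icc S 1) := by
      apply ContinuousOn.div continuousOn_const continuousOn_id
      intro x hx
      exact (lt_of_lt_of_le h0 hx.1).ne'
    have h2 : ContinuousOn (fun s : ℝ => 1 / 4 * (1 + S / s) - 0.7647 * s) (Icc S 1) := by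
      fun_prop
    have h3 : ContinuousOn (fun s : ℝ => -(0.2924 * s)) (Icc S 1) := by fun_prop
    exact h3.sup h2

theorem bs_int {S : ℝ} (hS : 0 ≤ S) (hS1 : S ≤ 1) : IntervalIntegrable (bs S) volume 0 S ∧
    IntervalIntegrable (bs S) volume S 1 := by
  constructor
  · rcases eq_or_lt_of_le hS with h0 | h0
    · subst h0; simp
    · have hi : IntervalIntegrable (fun s : ℝ => 0.7647 * s) volume 0 S :=
        Continuous.intervalIntegrable (by fun_prop) 0 S
      have h1 := (ii1 h0).sub hi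
      refine h1.congr_ae ?_
      have h1 : ∀ᵐ x : ℝ, x ≠ S := by rw [ae_iff]; simp
      rw [Filter.EventuallyEq, ae_restrict_iff' measurableSet_uIoc]
      filter_upwards [h1] with s hs1 hs2
      rw [uIoc_of_le hS] at hs2
      have h3 : s < S := lt_of_le_of_ne hs2.2 hs1
      simp only [bs, h3, if_true]
  · refine (ii2 hS hS1).congr_ae ?_
    rw [Filter.EventuallyEq, ae_restrict_iff' measurableSet_uIoc]
    filter_upwards with s hs2
    rw [uIoc_of_le hS1] at hs2
    have h3 : ¬ s < S := not_lt.mpr hs2.1.le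
    simp only [bs, h3, if_false]

theorem bs_neg (hR3 : StR3) {S : ℝ} (hS : 0 ≤ S) (hS1 : S ≤ 1) : ∫ s in (0 : ℝ)..1, bs S s < 0 := by
  obtain ⟨h1, h2⟩ := bs_int hS hS1
  rw [← intervalIntegral.integral_add_adjacent_intervals h1 h2]
  have e2 : ∫ s in S..1, bs S s =
      ∫ s in S..1, max (-(0.2924 * s)) (1 / 4 * (1 + S / s) - 0.7647 * s) := by
    apply intervalIntegral.integral_congr
    intro s hs
    rw [uIcc_of_le hS1] at hs
    have h3 : ¬ s < S := not_lt.mpr hs.1
    simp only [bs, h3, if_false]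
  have h3 := hR3.2 S hS hS1
  have e1 : ∫ s in (0 : ℝ)..S, bs S s ≤
      S * (1 / 4 + (2 * Real.log 2 - 1) / (2 * Real.pi)) - 0.7647 * S ^ 2 / 2 := by
    rcases eq_or_lt_of_le hS with h0 | h0
    · subst h0; simp
    · have e : ∫ s in (0 : ℝ)..S, bs S s = ∫ s in (0 : ℝ)..S, (s / (2 * S) +
          (S - s) / (2 * Real.pi * S) * Real.log ((S + s) / (S - s)) - 0.7647 * s) := by
        apply intervalIntegral.integral_congr_ae
        have h1 : ∀ᵐ x : ℝ, x ≠ S := by rw [ae_iff]; simp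
        filter_upwards [h1] with s hs1 hs2
        rw [uIoc_of_le hS] at hs2
        have h3 : s < S := lt_of_le_of_ne hs2.2 hs1
        simp only [bs, h3, if_true]
      have hi : IntervalIntegrable (fun s : ℝ => 0.7647 * s) volume 0 S :=
        Continuous.intervalIntegrable (by fun_prop) 0 S
      rw [e, intervalIntegral.integral_sub (ii1 h0) hi]
      have h4 := hR3.1 S h0
      have h5 : ∫ s in (0 : ℝ)..S, 0.7647 * s = 0.7647 * S ^ 2 / 2 := by
        rw [intervalIntegral.integral_const_mul, integral_id]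
        ring
      rw [h5]
      linarith
  rw [e2]
  linarith


theorem core (hK1b : StK1b) (hK2 : StK2) (hK3 : StK3) (hR3 : StR3) (hR4 : StR4)
    {A : Set (ℝ × ℝ)} {W : ℝ} (hS : Sol A W)
    (h1 : ∀ t, 0 < t → t < 1 → ((5 / 3 * t, t) : ℝ × ℝ) ∈ A)
    (h2 : ∀ t, 1 < t → ((5 / 3 * t, t) : ℝ × ℝ) ∉ A) :
    ∀ z ∈ A, z.2 ≤ 1 → |z.1| + z.2 ≤ 9 / 2 := by
  intro z0 hz0 hz01
  by_contra hcon
  push Not at hcon
  have hA := hS.dm
  -- the maximum
  obtain ⟨p, hpK, hpm⟩ : ∃ p ∈ closure A ∩ {z : ℝ × ℝ | 0 ≤ z.1 ∧ z.2 ≤ 1},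
      IsMaxOn (fun z : ℝ × ℝ => z.1 + z.2) (closure A ∩ {z : ℝ × ℝ | 0 ≤ z.1 ∧ z.2 ≤ 1}) p := by
    apply IsCompact.exists_isMaxOn
    · apply (compact_closure hA).inter_right
      exact (isClosed_le continuous_const continuous_fst).inter
        (isClosed_le continuous_snd continuous_const)
    · refine ⟨(|z0.1|, z0.2), subset_closure ?_, abs_nonneg _, hz01⟩
      have h0 : 0 < z0.2 := hA.sub hz0
      exact hA.mono _ hz0 _ h0 (by simp) le_rfl
    · fun_prop
  obtain ⟨X, S⟩ := p
  have hmem : ∀ x s : ℝ, (x, s) ∈ A → s ≤ 1 → |x| + s ≤ X + S := by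
    intro x s hx hs
    have h0 : 0 < s := hA.sub hx
    have : (|x|, s) ∈ A := hA.mono _ hx _ h0 (by simp) le_rfl
    exact hpm ⟨subset_closure this, abs_nonneg _, hs⟩
  have hXS : 9 / 2 < X + S := lt_of_lt_of_le hcon (hmem z0.1 z0.2 hz0 hz01)
  have hS0 : 0 ≤ S := closure_nonneg hA.sub hpK.1
  have hS1 : S ≤ 1 := hpK.2.2
  have hp := phi_closure hK3 hS hpK.1
  have hcor := phi_corner hK3 hS h2
  obtain ⟨iP, -⟩ := hK2 A hA.meas hA.sub hA.vol (X, S) hS0
  obtain ⟨iW, -⟩ := hK2 A hA.meas hA.sub hA.vol (5 / 3, 1) (by norm_num)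
  set h : ℝ × ℝ → ℝ := fun y => N (X, S) y - N (5 / 3, 1) y with hh
  have ih : IntegrableOn h A := iP.sub iW
  have hge : 0 ≤ ∫ y in A, h y := by
    rw [hh, integral_sub iP iW]
    have : phi A (5 / 3, 1) ≤ phi A (X, S) := hcor.trans hp
    unfold phi at this
    linarith
  rw [← integral_indicator hA.meas] at hge
  have iI : Integrable (A.indicator h) (volume : Measure (ℝ × ℝ)) := ih.integrable_indicator hA.meas
  rw [Measure.volume_eq_prod] at iI hge
  rw [integral_prod_symm _ iI] at hge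
  -- row bounds
  have hrow : ∀ᵐ s : ℝ, ∫ x, A.indicator h (x, s) ≤ (Ioc (0 : ℝ) 1).indicator (bs S) s := by
    have e1 : ∀ᵐ s : ℝ, s ≠ S := by rw [ae_iff]; simp
    have e2 : ∀ᵐ s : ℝ, s ≠ 1 := by rw [ae_iff]; simp
    filter_upwards [e1, e2] with s hs1 hs2
    rcases le_or_gt s 0 with h0 | h0
    · rw [indicator_of_notMem (by simp [h0])]
      apply le_of_eq
      have : ∀ x : ℝ, A.indicator h (x, s) = 0 := by
        intro x
        apply indicator_of_notMem
        intro hx
        have : 0 < s := hA.sub hx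
        linarith
      simp [this]
    rcases lt_or_gt_of_ne hs2 with h3 | h3
    · -- s < 1
      rw [indicator_of_mem (show s ∈ Ioc (0 : ℝ) 1 from ⟨h0, h3.le⟩)]
      have hin : ∀ t, s < t → t < 1 → (5 / 3 * t, s) ∈ A := by
        intro t ht1 ht2
        exact hA.mono _ (h1 t (h0.trans ht1) ht2) (5 / 3 * t, s) h0 le_rfl ht1.le
      obtain ⟨t0, ht0, ht0'⟩ := exists_between h3
      have hne : (Rw A s).Nonempty := ⟨5 / 3 * t0, hin t0 ht0 ht0'⟩
      have hl : 5 / 3 ≤ hw A s := by
        apply le_of_forall_lt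
        intro c hc
        have hc' : max s (3 / 5 * c) < 1 := max_lt h3 (by linarith)
        obtain ⟨t, ht1, ht2⟩ := exists_between hc'
        have h4 := Rw_le hA (hin t ((le_max_left _ _).trans_lt ht1) ht2)
        have h5 : 3 / 5 * c < t := (le_max_right _ _).trans_lt ht1
        have h6 := le_abs_self (5 / 3 * t)
        linarith
      have hlc : hw A s ≤ X + S - s := by
        apply csSup_le hne
        intro x hx
        have := hmem x s hx h3.le
        have := le_abs_self x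
        linarith
      have hXl : s < S → X ≤ hw A s := by
        intro hsS
        apply le_of_forall_lt
        intro c hc
        have hop : IsOpen ({z : ℝ × ℝ | c < z.1} ∩ {z | s < z.2}) :=
          (isOpen_lt continuous_const continuous_fst).inter
            (isOpen_lt continuous_const continuous_snd)
        obtain ⟨y, ⟨hy1, hy2⟩, hyA⟩ := mem_closure_iff.mp hpK.1 _ hop ⟨hc, hsS⟩
        have hy1' : c < y.1 := hy1
        have hy2' : s < y.2 := hy2
        have h4 : (y.1, s) ∈ A := hA.mono _ hyA _ h0 le_rfl hy2'.le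
        have h5 := Rw_le hA h4
        have h6 := le_abs_self y.1
        linarith
      rw [row_integral hA h0 hne (by linarith) h]
      exact hR4 X S s (hw A s) hS0 hS1 hXS.le h0 h3 hs1 hl hlc hXl
    · -- s > 1
      rw [indicator_of_notMem (by simp [h3])]
      apply integral_nonpos
      intro x
      show A.indicator h (x, s) ≤ 0
      by_cases hx : (x, s) ∈ A
      · rw [indicator_of_mem hx]
        have hx1 : |x| ≤ 5 / 3 := by
          by_contra hx2
          push Not at hx2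
          obtain ⟨t, ht1, ht2⟩ := exists_between (show 1 < min s (3 / 5 * |x|) from
            lt_min h3 (by linarith))
          apply h2 t ht1
          have h4 : t < s := ht2.trans_le (min_le_left _ _)
          have h5 : t < 3 / 5 * |x| := ht2.trans_le (min_le_right _ _)
          refine hA.mono _ hx _ (show (0 : ℝ) < t by linarith) ?_ h4.le
          show |5 / 3 * t| ≤ |x|
          rw [abs_of_pos (by linarith)]
          linarith
        rw [abs_le] at hx1
        have hX : 7 / 2 ≤ X := by linarith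
        have := hK1b (X, S) (5 / 3, 1) (x, s) hS0 hS1 (by linarith) (by
          intro he
          have := congrArg Prod.snd he
          simp only at this
          linarith) (by
          show (5 / 3 - x) ^ 2 + 1 ^ 2 ≤ (X - x) ^ 2 + S ^ 2
          nlinarith)
        simp only [hh]
        linarith
      · rw [indicator_of_notMem hx]
  obtain ⟨b1, b2⟩ := bs_int hS0 hS1
  have b3 := b1.trans b2
  have b4 : Integrable ((Ioc (0 : ℝ) 1).indicator (bs S)) := by
    rw [integrable_indicator_iff measurableSet_Ioc]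
    exact (intervalIntegrable_iff_integrableOn_Ioc_of_le zero_le_one).mp b3
  have h5 := integral_mono_ae iI.integral_prod_right b4 hrow
  rw [integral_indicator measurableSet_Ioc, ← intervalIntegral.integral_of_le zero_le_one] at h5
  have h6 := bs_neg hR3 hS0 hS1
  linarith

end VD.M_R5

namespace VD

open VD.M_R5 in
/-- wide sets: comparison of two points row by row -/
theorem mR5 (_hK0 : StK0) (_hK1 : StK1) (hK1b : StK1b) (hK2 : StK2) (hK3 : StK3) (hK5 : StK5)
    (hR3 : StR3) (hR4 : StR4) : StR5 := by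
  intro A W hS τ hτ h1 h2 z hz hz2
  have hA := hS.dm
  have hi : 0 < 1 / τ := by positivity
  have hmem : ∀ y : ℝ × ℝ, y ∈ dil (1 / τ) A ↔ (τ * y.1, τ * y.2) ∈ A := by
    intro y
    show (y.1 / (1 / τ), y.2 / (1 / τ)) ∈ A ↔ _
    rw [div_div_eq_mul_div, div_div_eq_mul_div, div_one, div_one, mul_comm y.1, mul_comm y.2]
  have hphi := (hK5.1 A (1 / τ) hA.meas hA.sub hi).1
  have hS' : Sol (dil (1 / τ) A) (W / τ) := by
    refine ⟨⟨?_, ?_, ?_, ?_⟩, ?_, div_pos hS.pos hτ, ?_⟩
    · have : dil (1 / τ) A = (fun y : ℝ × ℝ => (y.1 / (1 / τ), y.2 / (1 / τ))) ⁻¹' A := rfl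
      rw [this]
      apply (show Measurable (fun y : ℝ × ℝ => (y.1 / (1 / τ), y.2 / (1 / τ))) by fun_prop) hA.meas
    · intro y hy
      have : 0 < τ * y.2 := hA.sub ((hmem y).mp hy)
      exact (pos_iff_pos_of_mul_pos this).mp hτ
    · obtain ⟨R, hR⟩ := hA.bdd
      refine ⟨R / τ, fun y hy => ?_⟩
      obtain ⟨b1, b2, b3⟩ := hR ((hmem y).mp hy)
      refine ⟨?_, ?_, ?_⟩
      · rw [le_div_iff₀ hτ, mul_comm]
        simpa [abs_mul, abs_of_pos hτ] using b1
      · exact (pos_iff_pos_of_mul_pos b2).mp hτ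
      · rw [le_div_iff₀ hτ, mul_comm]
        exact b3
    · intro y hy w hw hw1 hw2
      rw [hmem] at hy ⊢
      refine hA.mono _ hy _ (show 0 < τ * w.2 by positivity) ?_ ?_
      · show |τ * w.1| ≤ |τ * y.1|
        rw [abs_mul, abs_mul]
        exact mul_le_mul_of_nonneg_left hw1 (abs_nonneg _)
      · exact mul_le_mul_of_nonneg_left hw2 hτ.le
    · obtain ⟨y, hy⟩ := hS.ne
      refine ⟨(y.1 / τ, y.2 / τ), (hmem _).mpr ?_⟩
      have e1 : τ * (y.1 / τ) = y.1 := by field_simp
      have e2 : τ * (y.2 / τ) = y.2 := by field_simp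
      show (τ * (y.1 / τ), τ * (y.2 / τ)) ∈ A
      rw [e1, e2]
      exact hy
    · intro y hy
      rw [hmem, hS.iff _ (show 0 < τ * y.2 by positivity)]
      have := hphi (τ * y.1, τ * y.2)
      simp only at this
      have e1 : 1 / τ * (τ * y.1) = y.1 := by field_simp
      have e2 : 1 / τ * (τ * y.2) = y.2 := by field_simp
      rw [e1, e2] at this
      have e3 : phi (dil (1 / τ) A) y = 1 / τ * phi A (τ * y.1, τ * y.2) := this
      rw [e3, div_lt_iff₀ hτ]
      have e4 : 1 / τ * phi A (τ * y.1, τ * y.2) * τ = phi A (τ * y.1, τ * y.2) := by field_simp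
      rw [e4]
  have key := core hK1b hK2 hK3 hR3 hR4 hS' (fun t ht0 ht1 => by
      rw [hmem]
      have := h1 (τ * t) (by positivity) (by nlinarith)
      have e : τ * (5 / 3 * t) = 5 / 3 * (τ * t) := by ring
      show (τ * (5 / 3 * t), τ * t) ∈ A
      rw [e]; exact this) (fun t ht => by
      rw [hmem]
      have := h2 (τ * t) (by nlinarith)
      have e : τ * (5 / 3 * t) = 5 / 3 * (τ * t) := by ring
      show (τ * (5 / 3 * t), τ * t) ∉ A
      rw [e]; exact this) (z.1 / τ, z.2 / τ) (by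
      rw [hmem]
      have e1 : τ * (z.1 / τ) = z.1 := by field_simp
      have e2 : τ * (z.2 / τ) = z.2 := by field_simp
      show (τ * (z.1 / τ), τ * (z.2 / τ)) ∈ A
      rw [e1, e2]
      exact hz) (by
      show z.2 / τ ≤ 1
      rw [div_le_one hτ]; exact hz2)
  have e : |z.1 / τ| + z.2 / τ ≤ 9 / 2 := key
  rw [abs_div, abs_of_pos hτ, ← add_div, div_le_iff₀ hτ] at e
  exact e

end VD
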